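import Pool.Agent.P8H64.SV.Law

/-!
# Bounds for all members of a class
-/

set_option autoImplicit false
set_option linter.unusedSectionVars false
set_option linter.style.haveILetI false

namespace Pool.Agent.P8H64.SV

open Pool.Agent.W907.SG Pool.Agent.W907.SM Pool.Agent.TH652.Join Pool.Agent.TH652.Above Polynomial
open Pool.Agent.P8H64.TP Pool.Agent.P8H64.TQ Pool.Agent.N13.EU Pool.Agent.R703.CW

/-- members with given dimension, number of vertices, generating polynomial, and a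
bound for the number of simplices -/
def Mem2 (C : Cl) (n v N : ℕ) (P : ℝ[X]) : Prop :=
  ∃ (V : Type) (_ : Fintype V) (_ : LinearOrder V) (G : SimpleGraph V), C n V G ∧ Fintype.card V = v ∧ bp G = P ∧
    nsim G ≤ N

theorem gonsA {C : Cl} (hC : FlagClass C) {m : ℕ} (hm : 4 ≤ m) {n v N : ℕ} {P : ℝ[X]} (h : Mem2 C n v N P)
    (r : ℕ) : Mem2 C (n + 2 * r) (v + m * r) (N * (3 * m) ^ r) (P * (Polynomial.C (bet (Cm m) 1) * X) ^ r) := by
  induction r with
  | zero => simpa using h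
  | succ r ih =>
    obtain ⟨V, fV, oV, G, h1, h2, h3, h5⟩ := ih
    rw [show n + 2 * (r + 1) = n + 2 * r + 2 by ring, show v + m * (r + 1) = v + m * r + m by ring,
      show N * (3 * m) ^ (r + 1) = N * (3 * m) ^ r * (3 * m) by ring]
    refine ⟨V ⊕ Fin m, inferInstance, ordSum V (Fin m), join G (Cm m), hC.join _ _ _ _ G (Cm m) h1 (hC.gon m hm),
      ?_, ?_, ?_⟩
    · rw [Fintype.card_sum, h2, Fintype.card_fin]
    · rw [bp_join, h3, gon_polyN hm, pow_succ]
      ring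
    · rw [nsim_join]
      exact Nat.mul_le_mul h5 (nsimN hm)

/-- in the dimension `n - 1` the Betti number of degree `i` is `o(v ^ k)`, `v` the number of vertices, for the members
with `O(v ^ k)` simplices -/
def LittleAll (C : Cl) (n i k : ℕ) : Prop :=
  ∀ K ε : ℝ, 0 < ε → ∃ v₀ : ℕ, ∀ (V : Type) [Fintype V] [LinearOrder V] (G : SimpleGraph V), C n V G →
    v₀ ≤ Fintype.card V → (Nat.card {T : Finset V // G.IsClique (T : Set V)} : ℝ) ≤ K * (Fintype.card V : ℝ) ^ k →
      bet G i ≤ ε * (Fintype.card V : ℝ) ^ k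

theorem zero_of_littleAll {C : Cl} (hC : FlagClass C) {n i k : ℕ} (hk : 1 ≤ k) (h : LittleAll C (n + 2 * k) (i + k) k)
    {v N : ℕ} {P : ℝ[X]} (hm : Mem2 C n v N P) : P.coeff i ≤ 0 := by
  by_contra hpos
  rw [not_le] at hpos
  set c := P.coeff i with hc
  set B : ℝ := (8 * (v + k)) ^ k with hB
  have hkR : (1 : ℝ) ≤ k := by exact_mod_cast hk
  have hv0 : (0 : ℝ) ≤ v := Nat.cast_nonneg v
  have hBpos : 0 < B := by rw [hB]; exact pow_pos (by linarith) k
  obtain ⟨v₀, hv₀⟩ := h (N * 3 ^ k) (c / (2 * B)) (by positivity)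
  obtain ⟨m, hmdef⟩ : ∃ m : ℕ, m = v₀ + 8 := ⟨_, rfl⟩
  have hm8 : 8 ≤ m := by omega
  have hm8R : (8 : ℝ) ≤ m := by exact_mod_cast hm8
  obtain ⟨V, fV, oV, G, hG, hcard, hbp, hsim⟩ := gonsA hC (show 4 ≤ m by omega) hm k
  have hmk1 : m * 1 ≤ m * k := Nat.mul_le_mul_left m hk
  have hbig : m ≤ Fintype.card V := by
    rw [hcard]
    omega
  have hbigR : (m : ℝ) ≤ Fintype.card V := by exact_mod_cast hbig
  have hfew : (Nat.card {T : Finset V // G.IsClique (T : Set V)} : ℝ) ≤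
      N * 3 ^ k * (Fintype.card V : ℝ) ^ k := by
    have h1 : (Nat.card {T : Finset V // G.IsClique (T : Set V)} : ℝ) ≤ ((N * (3 * m) ^ k : ℕ) : ℝ) := by
      exact_mod_cast hsim
    refine h1.trans ?_
    push_cast
    rw [mul_pow, ← mul_assoc]
    exact mul_le_mul_of_nonneg_left (pow_le_pow_left₀ (Nat.cast_nonneg _) hbigR k) (by positivity)
  have h1 := hv₀ V G hG (by omega) hfew
  have hbet : bet G (i + k) = bet (Cm m) 1 ^ k * c := by
    have h2 := coeff_mix (P := P) (f := bet (Cm m) 1) 1 k (i + k)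
    rw [pow_one] at h2
    rw [← bp_coeff, hbp, h2, if_pos (by omega), Nat.add_sub_cancel]
  have hb8 : (m : ℝ) / 8 ≤ bet (Cm m) 1 := by
    have := betN (show 4 ≤ m by omega)
    linarith
  have h3 : ((m : ℝ) / 8) ^ k * c ≤ c / (2 * B) * ((Fintype.card V : ℕ) : ℝ) ^ k := by
    refine le_trans ?_ h1
    rw [hbet]
    exact mul_le_mul_of_nonneg_right (pow_le_pow_left₀ (by positivity) hb8 k) hpos.le
  have h4 : ((Fintype.card V : ℕ) : ℝ) ^ k ≤ B * ((m : ℝ) / 8) ^ k := by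
    rw [hB, ← mul_pow]
    refine pow_le_pow_left₀ (Nat.cast_nonneg _) ?_ k
    rw [hcard]
    push_cast
    have : (v : ℝ) * 1 ≤ v * m := mul_le_mul_of_nonneg_left (by linarith) hv0
    nlinarith
  have hmk : 0 < ((m : ℝ) / 8) ^ k := pow_pos (by positivity) k
  have h5 : c / (2 * B) * ((Fintype.card V : ℕ) : ℝ) ^ k ≤ c / (2 * B) * (B * ((m : ℝ) / 8) ^ k) :=
    mul_le_mul_of_nonneg_left h4 (by positivity)
  have h6 : c / (2 * B) * (B * ((m : ℝ) / 8) ^ k) = (((m : ℝ) / 8) ^ k * c) / 2 := by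
    field_simp
  have h7 : 0 < ((m : ℝ) / 8) ^ k * c := mul_pos hmk hpos
  linarith

theorem van_of_littleAll {C : Cl} (hC : FlagClass C) {n i k : ℕ} (hk : 1 ≤ k) (h : LittleAll C (n + 2 * k) (i + k) k)
    (V : Type) [Fintype V] [LinearOrder V] (G : SimpleGraph V) (hG : C n V G) : L2Van G i := by
  have hm : Mem2 C n (Fintype.card V) (nsim G) (bp G) := ⟨V, _, _, G, hG, rfl, rfl, le_rfl⟩
  have h1 := zero_of_littleAll hC hk h hm
  rw [bp_coeff] at h1
  exact (bet_eq_zero i).1 (le_antisymm h1 (bet_nonneg i))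

theorem savings_of_singer {C : Cl} (h : Singer C) : Savings C := savings_of_qone (qone_of_singer h)

end Pool.Agent.P8H64.SV
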