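import Pool.Agent.P8H64.TQ.Gap

/-!
# Polygons
-/

set_option autoImplicit false
set_option linter.unusedSectionVars false

namespace Pool.Agent.P8H64.SV

open Pool.Agent.W907.SG Pool.Agent.W907.SM Pool.Agent.TH652.Join Pool.Agent.TH652.Above
open Pool.Agent.N496.LT.E1P Pool.Agent.P8H64.TP Pool.Agent.P8H64.TQ

/-- the polygon -/
abbrev Cm (m : ℕ) : SimpleGraph (Fin m) := SimpleGraph.cycleGraph m

theorem adjN {m : ℕ} (hm : 4 ≤ m) (a b : Fin m) : (Cm m).Adj a b ↔
    (a.1 + 1 = b.1 ∨ b.1 + 1 = a.1 ∨ (a.1 = 0 ∧ b.1 + 1 = m) ∨ (b.1 = 0 ∧ a.1 + 1 = m)) := by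
  have key : ∀ x y : Fin m, (x - y).1 = 1 ↔ (y.1 + 1 = x.1 ∨ (x.1 = 0 ∧ y.1 + 1 = m)) := by
    intro x y
    have hx := x.2
    have hy := y.2
    rcases Nat.lt_or_ge x.1 y.1 with h | h
    · have e : (x - y).1 = m + x.1 - y.1 := Fin.coe_sub_iff_lt.2 h
      omega
    · have e : (x - y).1 = x.1 - y.1 := Fin.coe_sub_iff_le.2 h
      omega
  rw [SimpleGraph.cycleGraph_adj', key, key]
  omega

/-- next vertex -/
def nx {m : ℕ} (hm : 4 ≤ m) (v : Fin m) : Fin m := ⟨if v.1 + 1 = m then 0 else v.1 + 1, by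
  have := v.2
  split_ifs <;> omega⟩

/-- previous vertex -/
def pv {m : ℕ} (hm : 4 ≤ m) (v : Fin m) : Fin m := ⟨if v.1 = 0 then m - 1 else v.1 - 1, by
  have := v.2
  split_ifs <;> omega⟩

theorem nx_val {m : ℕ} (hm : 4 ≤ m) (v : Fin m) : (nx hm v).1 = if v.1 + 1 = m then 0 else v.1 + 1 := rfl

theorem pv_val {m : ℕ} (hm : 4 ≤ m) (v : Fin m) : (pv hm v).1 = if v.1 = 0 then m - 1 else v.1 - 1 := rfl

theorem adj_nx {m : ℕ} (hm : 4 ≤ m) (a b : Fin m) : (Cm m).Adj a b ↔ (b = nx hm a ∨ a = nx hm b) := by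
  rw [adjN hm, Fin.ext_iff, Fin.ext_iff, nx_val, nx_val]
  have := a.2
  have := b.2
  split_ifs <;> omega

theorem adj_pv {m : ℕ} (hm : 4 ≤ m) (a b : Fin m) : (Cm m).Adj a b ↔ (a = nx hm b ∨ a = pv hm b) := by
  rw [adjN hm, Fin.ext_iff, Fin.ext_iff, nx_val, pv_val]
  have := a.2
  have := b.2
  split_ifs <;> omega

theorem no_triN {m : ℕ} (hm : 4 ≤ m) (a b c : Fin m) :
    ¬ ((Cm m).Adj a b ∧ (Cm m).Adj b c ∧ (Cm m).Adj a c) := by
  rw [adjN hm, adjN hm, adjN hm]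
  have := a.2
  have := b.2
  have := c.2
  omega

theorem nx_ne {m : ℕ} (hm : 4 ≤ m) (v : Fin m) : v ≠ nx hm v := by
  rw [ne_eq, Fin.ext_iff, nx_val]
  have := v.2
  split_ifs <;> omega

theorem clN {m : ℕ} (hm : 4 ≤ m) (S : Finset (Fin m)) (hS : (Cm m).IsClique (S : Set (Fin m))) :
    S = ∅ ∨ (∃ v, S = {v}) ∨ ∃ v, S = {v, nx hm v} := by
  rcases Nat.lt_or_ge 2 S.card with h | h
  · obtain ⟨a, ha, b, hb, c, hc, hab, hac, hbc⟩ := Finset.two_lt_card.1 h
    exact absurd ⟨hS ha hb hab, hS hb hc hbc, hS ha hc hac⟩ (no_triN hm a b c)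
  · rcases Nat.lt_or_ge 1 S.card with h1 | h1
    · obtain ⟨a, b, hab, rfl⟩ := Finset.card_eq_two.1 (show S.card = 2 by omega)
      right; right
      rcases (adj_nx hm a b).1 (hS (by simp) (by simp) hab) with h3 | h3
      · exact ⟨a, by rw [← h3]⟩
      · exact ⟨b, by rw [← h3, Finset.pair_comm]⟩
    · rcases Nat.eq_zero_or_pos S.card with h0 | h0
      · exact Or.inl (Finset.card_eq_zero.1 h0)
      · exact Or.inr (Or.inl (Finset.card_eq_one.1 (by omega)))

theorem pairN {m : ℕ} (a b : Fin m) (hab : a ≠ b) (hn : ¬ (Cm m).Adj a b) :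
    bb (Cm m) {a, b} 0 = 0 ∧ ∀ i, bb (Cm m) {a, b} (i + 1) = if i = 0 then 1 else 0 := by
  have h := bb_susp (G := Cm m) (A := {a, b}) (s := a) (t := b) (by simp) (by simp) hab hn (by
    intro w hw h1 h2
    rcases hw with h | h
    · exact absurd h h1
    · exact absurd h h2)
  refine ⟨h.1, fun i => ?_⟩
  rw [h.2 i, sdiff_self]
  exact bb_empty (Cm m) i

theorem lk_oneN {m : ℕ} (hm : 4 ≤ m) (v : Fin m) : lk (Cm m) {v} = {nx hm v, pv hm v} := by
  ext u
  have h : (∀ w ∈ ({v} : Finset (Fin m)), (Cm m).Adj u w) ↔ (u = nx hm v ∨ u = pv hm v) := by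
    rw [← adj_pv hm]
    simp only [Finset.mem_singleton, forall_eq]
  exact h

theorem lk_twoN {m : ℕ} (hm : 4 ≤ m) (v : Fin m) : lk (Cm m) {v, nx hm v} = ∅ := by
  rw [Set.eq_empty_iff_forall_notMem]
  intro u hu
  have hu' : ∀ w ∈ ({v, nx hm v} : Finset (Fin m)), (Cm m).Adj u w := hu
  exact no_triN hm u v (nx hm v) ⟨hu' v (by simp), (adj_nx hm _ _).2 (Or.inl rfl), hu' _ (by simp)⟩

/-- the paths -/
theorem pathN {m : ℕ} (hm : 4 ≤ m) : ∀ k : ℕ, ∀ j : ℕ, 1 ≤ j → j + k = m - 1 → ∀ i,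
    bb (Cm m) {x : Fin m | j ≤ x.1} i = 0 := by
  intro k
  induction k with
  | zero =>
    intro j _ hj i
    refine bb_cone (u := ⟨m - 1, by omega⟩) ?_ ?_ i
    · show j ≤ m - 1
      omega
    · intro w hw h
      exfalso
      apply h
      apply Fin.ext
      have h1 : j ≤ w.1 := hw
      have := w.2
      show w.1 = m - 1
      omega
  | succ k ih =>
    intro j hj1 hj i
    have h1 := ih (j + 1) (by omega) (by omega) i
    have hjm : j < m := by omega
    have e : {x : Fin m | j ≤ x.1} = insert (⟨j, hjm⟩ : Fin m) {x : Fin m | j + 1 ≤ x.1} := by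
      ext x
      rw [Set.mem_insert_iff, Fin.ext_iff]
      show j ≤ x.1 ↔ x.1 = j ∨ j + 1 ≤ x.1
      omega
    rw [e, ← h1]
    refine bb_dom (v := (⟨j, hjm⟩ : Fin m)) (u := (⟨j + 1, by omega⟩ : Fin m)) ?_ ?_ ?_ ?_ i
    · show ¬ j + 1 ≤ j
      omega
    · show j + 1 ≤ j + 1
      exact le_rfl
    · rw [adjN hm]
      left
      rfl
    · intro w hw h3 h4
      have h5 : j + 1 ≤ w.1 := hw
      rw [adjN hm] at h3
      have h6 : ¬ w.1 = j + 1 := fun h => h4 (Fin.ext h)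
      have := w.2
      simp only at h3
      exfalso
      omega

theorem allN {m : ℕ} (hm : 4 ≤ m) : bb (Cm m) Set.univ 0 = 0 ∧ bb (Cm m) Set.univ 1 = 0 ∧
    ∀ i, bb (Cm m) Set.univ (i + 2) = if i = 0 then 1 else 0 := by
  have e0 : (Set.univ : Set (Fin m)) = insert (⟨0, by omega⟩ : Fin m) {x : Fin m | 1 ≤ x.1} := by
    ext x
    rw [Set.mem_insert_iff, Fin.ext_iff]
    show True ↔ x.1 = 0 ∨ 1 ≤ x.1
    rw [true_iff]
    omega
  have k3 : ∀ i, bb (Cm m) {x : Fin m | 1 ≤ x.1} i = 0 := pathN hm (m - 2) 1 le_rfl (by omega)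
  have e1 : {x : Fin m | 1 ≤ x.1} ∩ (Cm m).neighborSet (⟨0, by omega⟩ : Fin m) =
      {(⟨1, by omega⟩ : Fin m), (⟨m - 1, by omega⟩ : Fin m)} := by
    ext w
    have h : (1 ≤ w.1 ∧ (Cm m).Adj (⟨0, by omega⟩ : Fin m) w) ↔ (w = ⟨1, by omega⟩ ∨ w = ⟨m - 1, by omega⟩) := by
      rw [adjN hm, Fin.ext_iff, Fin.ext_iff]
      have := w.2
      show (1 ≤ w.1 ∧ (0 + 1 = w.1 ∨ w.1 + 1 = 0 ∨ (0 = 0 ∧ w.1 + 1 = m) ∨ (w.1 = 0 ∧ 0 + 1 = m))) ↔
        (w.1 = 1 ∨ w.1 = m - 1)
      omega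
    exact h
  have h0 : (⟨0, by omega⟩ : Fin m) ∉ {x : Fin m | 1 ≤ x.1} := by
    show ¬ 1 ≤ 0
    omega
  obtain ⟨p1, p2⟩ := pairN (⟨1, by omega⟩ : Fin m) (⟨m - 1, by omega⟩ : Fin m) (by
    rw [ne_eq, Fin.ext_iff]
    show ¬ 1 = m - 1
    omega) (by
    rw [adjN hm]
    rintro (h | h | h | h)
    · have h' : 1 + 1 = m - 1 := h
      omega
    · have h' : m - 1 + 1 = 1 := h
      omega
    · have h' : 1 = 0 := h.1
      omega
    · have h' : m - 1 = 0 := h.1
      omega)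
  have s : ∀ i, bb (Cm m) Set.univ (i + 1) =
      bb (Cm m) {(⟨1, by omega⟩ : Fin m), (⟨m - 1, by omega⟩ : Fin m)} i := by
    intro i
    have u1 := bb_vert (G := Cm m) h0 i
    have u2 := bb_lnk (G := Cm m) h0 i
    rw [k3, e1, ← e0] at u1
    rw [k3, e1, ← e0] at u2
    omega
  refine ⟨?_, ?_, fun i => ?_⟩
  · have := bb_vert0 (G := Cm m) h0
    rw [k3, ← e0] at this
    omega
  · rw [s 0, p1]
  · rw [s (i + 1), p2 i]

theorem hsphN {m : ℕ} (hm : 4 ≤ m) : HSph 2 (Cm m) := by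
  intro S hS i
  rcases clN hm S hS with rfl | ⟨v, rfl⟩ | ⟨v, rfl⟩
  · have hl : lk (Cm m) (∅ : Finset (Fin m)) = Set.univ := by
      ext x; simp [lk]
    rw [hl, Finset.card_empty]
    show bb (Cm m) Set.univ i = _
    obtain ⟨a1, a2, a3⟩ := allN hm
    match i with
    | 0 => rw [a1]; simp
    | 1 => rw [a2]; simp
    | i + 2 => rw [a3]; simp
  · rw [lk_oneN hm, Finset.card_singleton]
    show bb (Cm m) {nx hm v, pv hm v} i = _
    have hv := v.2
    obtain ⟨a1, a2⟩ := pairN (nx hm v) (pv hm v) (by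
      rw [ne_eq, Fin.ext_iff, nx_val, pv_val]
      split_ifs <;> omega) (by
      rw [adjN hm]
      have q1 := nx_val hm v
      have q2 := pv_val hm v
      split_ifs at q1 q2 <;> omega)
    match i with
    | 0 => rw [a1]; simp
    | i + 1 => rw [a2]; simp
  · have hc : ({v, nx hm v} : Finset (Fin m)).card = 2 := Finset.card_pair (nx_ne hm v)
    rw [lk_twoN hm, hc]
    show bb (Cm m) ∅ i = _
    rw [bb_empty]
    simp

theorem pair_inj {m : ℕ} (hm : 4 ≤ m) : Function.Injective fun v : Fin m => ({v, nx hm v} : Finset (Fin m)) := by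
  intro v w h
  have h' : ({v, nx hm v} : Finset (Fin m)) = {w, nx hm w} := h
  have h1 : v ∈ ({w, nx hm w} : Finset (Fin m)) := by rw [← h']; simp
  have h2 : nx hm v ∈ ({w, nx hm w} : Finset (Fin m)) := by rw [← h']; simp
  rw [Finset.mem_insert, Finset.mem_singleton] at h1 h2
  rcases h1 with h1 | h1
  · exact h1
  · rcases h2 with h2 | h2
    · exfalso
      rw [Fin.ext_iff, nx_val] at h1 h2
      have := v.2
      have := w.2
      split_ifs at h1 h2 <;> omega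
    · exfalso
      rw [Fin.ext_iff, nx_val] at h1
      rw [Fin.ext_iff, nx_val, nx_val] at h2
      have := v.2
      have := w.2
      split_ifs at h1 h2 <;> omega

theorem chiN {m : ℕ} (hm : 4 ≤ m) : chiW (Cm m) = 1 - (m : ℚ) / 4 := by
  classical
  have h1 : chiW (Cm m) = ∑ T ∈ (insert ∅ ((Finset.univ.image fun v : Fin m => ({v} : Finset (Fin m))) ∪
      Finset.univ.image fun v : Fin m => ({v, nx hm v} : Finset (Fin m)))), (-1 / 2 : ℚ) ^ T.card := by
    unfold chiW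
    refine Eq.trans (b := ∑ T ∈ Finset.univ.filter (fun T : Finset (Fin m) => (Cm m).IsClique (T : Set (Fin m))),
      (-1 / 2 : ℚ) ^ T.card) ?_ ?_
    · rw [Finset.sum_filter]
      refine Finset.sum_congr rfl fun T _ => ?_
      by_cases hT : (Cm m).IsClique (T : Set (Fin m))
      · rw [if_pos hT, if_pos hT]
      · rw [if_neg hT, if_neg hT]
    refine Finset.sum_congr ?_ fun _ _ => rfl
    ext T
    simp only [Finset.mem_filter, Finset.mem_univ, true_and, Finset.mem_insert, Finset.mem_union,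
      Finset.mem_image]
    constructor
    · intro h
      rcases clN hm T h with h | ⟨v, h⟩ | ⟨v, h⟩
      · exact Or.inl h
      · exact Or.inr (Or.inl ⟨v, h.symm⟩)
      · exact Or.inr (Or.inr ⟨v, h.symm⟩)
    · rintro (rfl | ⟨v, rfl⟩ | ⟨v, rfl⟩)
      · simp
      · simp
      · intro a ha b hb hab
        rw [Finset.mem_coe, Finset.mem_insert, Finset.mem_singleton] at ha hb
        rw [adj_nx hm]
        rcases ha with ha | ha <;> rcases hb with hb | hb
        · exact absurd (ha.trans hb.symm) hab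
        · left; rw [ha, hb]
        · right; rw [ha, hb]
        · exact absurd (ha.trans hb.symm) hab
  rw [h1, Finset.sum_insert, Finset.sum_union, Finset.sum_image, Finset.sum_image]
  · have e1 : ∀ v : Fin m, (-1 / 2 : ℚ) ^ ({v} : Finset (Fin m)).card = -1 / 2 := fun v => by
      rw [Finset.card_singleton, pow_one]
    have e2 : ∀ v : Fin m, (-1 / 2 : ℚ) ^ ({v, nx hm v} : Finset (Fin m)).card = 1 / 4 := fun v => by
      rw [Finset.card_pair (nx_ne hm v)]; norm_num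
    rw [Finset.sum_congr rfl fun v _ => e1 v, Finset.sum_congr rfl fun v _ => e2 v, Finset.sum_const,
      Finset.sum_const, Finset.card_univ, Fintype.card_fin, Finset.card_empty, pow_zero, nsmul_eq_mul, nsmul_eq_mul]
    ring
  · exact fun v _ w _ h => pair_inj hm h
  · exact fun v _ w _ h => Finset.singleton_injective h
  · rw [Finset.disjoint_left]
    intro T hT hT'
    obtain ⟨v, -, rfl⟩ := Finset.mem_image.1 hT
    obtain ⟨w, -, h⟩ := Finset.mem_image.1 hT'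
    have := congrArg Finset.card h
    rw [Finset.card_pair (nx_ne hm w), Finset.card_singleton] at this
    omega
  · intro h
    rw [Finset.mem_union, Finset.mem_image, Finset.mem_image] at h
    rcases h with ⟨v, -, h⟩ | ⟨v, -, h⟩
    · exact Finset.singleton_ne_empty _ h
    · exact Finset.insert_ne_empty _ _ h

theorem vanN {m : ℕ} (hm : 4 ≤ m) (i : ℕ) (hi : i ≠ 1) : L2Van (Cm m) i := by
  have hH : Pool.Agent.N13.EU.Hered 2 (Cm m) :=
    (Pool.Agent.N13.PL.hered_iff2 Pool.Agent.N13.PL.three (hsphN hm)).2 fun T m hT hm hm' => by omega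
  exact Pool.Agent.N13.EU.singer_hered (hsphN hm) hH i (by omega)

theorem betN {m : ℕ} (hm : 4 ≤ m) : (m : ℝ) / 4 - 1 ≤ bet (Cm m) 1 := by
  have h := chi_le_bet (Cm m) 1 (vanN hm)
  rw [chiN hm] at h
  refine le_trans ?_ h
  push_cast
  rw [abs_sub_comm]
  exact le_abs_self _

end Pool.Agent.P8H64.SV
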