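import Pool.Agent.P8H64.SV.Gon

/-!
# Savings of a power of the number of vertices
-/

set_option autoImplicit false
set_option linter.unusedSectionVars false
set_option linter.style.haveILetI false

namespace Pool.Agent.P8H64.SV

open Pool.Agent.W907.SG Pool.Agent.W907.SM Pool.Agent.TH652.Join Pool.Agent.TH652.Above Polynomial
open Pool.Agent.P8H64.TP Pool.Agent.P8H64.TQ Pool.Agent.N13.EU Pool.Agent.R703.CW

/-- A class of flag homology spheres (`C n V G`: the flag complex of the graph `G` on `V` is a member of dimension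
`n - 1`) which is closed under joins and links of simplices and contains all `m`-gons with `m ≥ 4`. For example all flag
homology spheres, or those which are combinatorial spheres. -/
structure FlagClass (C : ∀ (n : ℕ) (V : Type) [Fintype V] [LinearOrder V], SimpleGraph V → Prop) : Prop where
  /-- the members are homology spheres -/
  sph : ∀ (n : ℕ) (V : Type) [Fintype V] [LinearOrder V] (G : SimpleGraph V), C n V G → HSph n G
  /-- joins; the vertex set `V ⊕ U` has the order with all elements of `V` before all elements of `U` -/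
  join : ∀ (m n : ℕ) (V U : Type) [Fintype V] [LinearOrder V] [Fintype U] [LinearOrder U] (G : SimpleGraph V)
    (H : SimpleGraph U), C m V G → C n U H → @C (m + n) (V ⊕ U) _ (ordSum V U) (join G H)
  /-- links; the link of the simplex `T` is the flag complex of the subgraph spanned by the vertices which are adjacent
  to all elements of `T` -/
  link : ∀ (n : ℕ) (V : Type) [Fintype V] [LinearOrder V] (G : SimpleGraph V), C n V G →
    ∀ T : Finset V, G.IsClique (T : Set V) → ∀ [Fintype ↥(lk G T)],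
      C (n - T.card) ↥(lk G T) (G.induce (lk G T))
  /-- the polygons -/
  gon : ∀ m : ℕ, 4 ≤ m → C 2 (Fin m) (SimpleGraph.cycleGraph m)

theorem FlagClass.gap {C : Cl} (hC : FlagClass C) : GapClass C where
  sph := hC.sph
  join := hC.join
  pent := hC.gon 5 (by norm_num)
  link := hC.link
  gon := hC.gon 18 (by norm_num)

theorem gon_polyN {m : ℕ} (hm : 4 ≤ m) : bp (Cm m) = C (bet (Cm m) 1) * X := by
  ext i
  rw [bp_coeff, coeff_C_mul, coeff_X]
  by_cases hi : 1 = i
  · rw [if_pos hi, ← hi, mul_one]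
  · rw [if_neg hi, mul_zero]
    exact (bet_eq_zero i).2 (vanN hm i fun h => hi h.symm)


/-- the number of simplices, including the empty one -/
noncomputable def nsim {V : Type} (G : SimpleGraph V) : ℕ := Nat.card {T : Finset V // G.IsClique (T : Set V)}

theorem nsim_join {V U : Type} [Fintype V] [Fintype U] (G : SimpleGraph V) (H : SimpleGraph U) :
    nsim (join G H) = nsim G * nsim H := by
  unfold nsim
  rw [← Nat.card_prod]
  refine Nat.card_congr ((Finset.sumEquiv.toEquiv.subtypeEquiv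
    (q := fun c : Finset V × Finset U => G.IsClique (c.1 : Set V) ∧ H.IsClique (c.2 : Set U))
    fun F => ?_).trans (Equiv.subtypeProdEquivProd (p := fun T : Finset V => G.IsClique (T : Set V))
      (q := fun T : Finset U => H.IsClique (T : Set U))))
  exact clique_join G H F

theorem nsimN {m : ℕ} (hm : 4 ≤ m) : nsim (Cm m) ≤ 3 * m := by
  classical
  set A : Finset (Finset (Fin m)) := insert ∅ ((Finset.univ.image fun v : Fin m => ({v} : Finset (Fin m))) ∪
      Finset.univ.image fun v : Fin m => ({v, nx hm v} : Finset (Fin m))) with hA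
  have h1 : nsim (Cm m) ≤ A.card := by
    have h2 : nsim (Cm m) ≤ Nat.card {T // T ∈ A} := by
      unfold nsim
      refine Nat.card_le_card_of_injective
        (fun T : {T : Finset (Fin m) // (Cm m).IsClique (T : Set (Fin m))} => (⟨T.1, ?_⟩ : {T // T ∈ A})) ?_
      · rw [hA, Finset.mem_insert, Finset.mem_union, Finset.mem_image, Finset.mem_image]
        rcases clN hm T.1 T.2 with h | ⟨v, h⟩ | ⟨v, h⟩
        · exact Or.inl h
        · exact Or.inr (Or.inl ⟨v, Finset.mem_univ _, h.symm⟩)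
        · exact Or.inr (Or.inr ⟨v, Finset.mem_univ _, h.symm⟩)
      · intro T T' h
        exact Subtype.ext (congrArg (fun x : {T // T ∈ A} => x.1) h)
    rwa [Nat.card_eq_fintype_card, Fintype.card_coe] at h2
  have h3 : A.card ≤ (m + m) + 1 := by
    refine (Finset.card_insert_le _ _).trans (Nat.add_le_add_right ((Finset.card_union_le _ _).trans ?_) 1)
    refine Nat.add_le_add (Finset.card_image_le.trans ?_) (Finset.card_image_le.trans ?_)
    · rw [Finset.card_univ, Fintype.card_fin]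
    · rw [Finset.card_univ, Fintype.card_fin]
  omega

/-- members with Euler characteristic zero with given dimension, number of vertices, generating polynomial, and a
bound for the number of simplices -/
def Mem1 (C : Cl) (n v N : ℕ) (P : ℝ[X]) : Prop :=
  ∃ (V : Type) (_ : Fintype V) (_ : LinearOrder V) (G : SimpleGraph V), C n V G ∧ Fintype.card V = v ∧ bp G = P ∧
    chiW G = 0 ∧ nsim G ≤ N

theorem gonsN {C : Cl} (hC : FlagClass C) {m : ℕ} (hm : 4 ≤ m) {n v N : ℕ} {P : ℝ[X]} (h : Mem1 C n v N P)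
    (r : ℕ) : Mem1 C (n + 2 * r) (v + m * r) (N * (3 * m) ^ r) (P * (Polynomial.C (bet (Cm m) 1) * X) ^ r) := by
  induction r with
  | zero => simpa using h
  | succ r ih =>
    obtain ⟨V, fV, oV, G, h1, h2, h3, h4, h5⟩ := ih
    rw [show n + 2 * (r + 1) = n + 2 * r + 2 by ring, show v + m * (r + 1) = v + m * r + m by ring,
      show N * (3 * m) ^ (r + 1) = N * (3 * m) ^ r * (3 * m) by ring]
    refine ⟨V ⊕ Fin m, inferInstance, ordSum V (Fin m), join G (Cm m), hC.join _ _ _ _ G (Cm m) h1 (hC.gon m hm),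
      ?_, ?_, ?_, ?_⟩
    · rw [Fintype.card_sum, h2, Fintype.card_fin]
    · rw [bp_join, h3, gon_polyN hm, pow_succ]
      ring
    · rw [chi_join, h4, zero_mul]
    · rw [nsim_join]
      exact Nat.mul_le_mul h5 (nsimN hm)

/-- in the dimension `n - 1` the Betti number of degree `i` is `o(v ^ k)`, `v` the number of vertices, for the members
with Euler characteristic zero and `O(v ^ k)` simplices -/
def Little (C : Cl) (n i k : ℕ) : Prop :=
  ∀ K ε : ℝ, 0 < ε → ∃ v₀ : ℕ, ∀ (V : Type) [Fintype V] [LinearOrder V] (G : SimpleGraph V), C n V G → chiW G = 0 →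
    v₀ ≤ Fintype.card V → (Nat.card {T : Finset V // G.IsClique (T : Set V)} : ℝ) ≤ K * (Fintype.card V : ℝ) ^ k →
      bet G i ≤ ε * (Fintype.card V : ℝ) ^ k

theorem zero_of_little {C : Cl} (hC : FlagClass C) {n i k : ℕ} (hk : 1 ≤ k) (h : Little C (n + 2 * k) (i + k) k)
    {v N : ℕ} {P : ℝ[X]} (hm : Mem1 C n v N P) : P.coeff i ≤ 0 := by
  by_contra hpos
  rw [not_le] at hpos
  set c := P.coeff i with hc
  set B : ℝ := (8 * (v + k)) ^ k with hB
  have hkR : (1 : ℝ) ≤ k := by exact_mod_cast hk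
  have hv0 : (0 : ℝ) ≤ v := Nat.cast_nonneg v
  have hBpos : 0 < B := by rw [hB]; exact pow_pos (by linarith) k
  obtain ⟨v₀, hv₀⟩ := h (N * 3 ^ k) (c / (2 * B)) (by positivity)
  obtain ⟨m, hmdef⟩ : ∃ m : ℕ, m = v₀ + 8 := ⟨_, rfl⟩
  have hm8 : 8 ≤ m := by omega
  have hm8R : (8 : ℝ) ≤ m := by exact_mod_cast hm8
  obtain ⟨V, fV, oV, G, hG, hcard, hbp, hchi, hsim⟩ := gonsN hC (show 4 ≤ m by omega) hm k
  have hmk1 : m * 1 ≤ m * k := Nat.mul_le_mul_left m hk
  have hbig : m ≤ Fintype.card V := by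
    rw [hcard]
    omega
  have hbigR : (m : ℝ) ≤ Fintype.card V := by exact_mod_cast hbig
  have hfew : (Nat.card {T : Finset V // G.IsClique (T : Set V)} : ℝ) ≤
      N * 3 ^ k * (Fintype.card V : ℝ) ^ k := by
    have h1 : (Nat.card {T : Finset V // G.IsClique (T : Set V)} : ℝ) ≤ ((N * (3 * m) ^ k : ℕ) : ℝ) := by
      exact_mod_cast hsim
    refine h1.trans ?_
    push_cast
    rw [mul_pow, ← mul_assoc]
    exact mul_le_mul_of_nonneg_left (pow_le_pow_left₀ (Nat.cast_nonneg _) hbigR k) (by positivity)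
  have h1 := hv₀ V G hG hchi (by omega) hfew
  have hbet : bet G (i + k) = bet (Cm m) 1 ^ k * c := by
    have h2 := coeff_mix (P := P) (f := bet (Cm m) 1) 1 k (i + k)
    rw [pow_one] at h2
    rw [← bp_coeff, hbp, h2, if_pos (by omega), Nat.add_sub_cancel]
  have hb8 : (m : ℝ) / 8 ≤ bet (Cm m) 1 := by
    have := betN (show 4 ≤ m by omega)
    linarith
  have h3 : ((m : ℝ) / 8) ^ k * c ≤ c / (2 * B) * ((Fintype.card V : ℕ) : ℝ) ^ k := by
    refine le_trans ?_ h1
    rw [hbet]
    exact mul_le_mul_of_nonneg_right (pow_le_pow_left₀ (by positivity) hb8 k) hpos.le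
  have h4 : ((Fintype.card V : ℕ) : ℝ) ^ k ≤ B * ((m : ℝ) / 8) ^ k := by
    rw [hB, ← mul_pow]
    refine pow_le_pow_left₀ (Nat.cast_nonneg _) ?_ k
    rw [hcard]
    push_cast
    have : (v : ℝ) * 1 ≤ v * m := mul_le_mul_of_nonneg_left (by linarith) hv0
    nlinarith
  have hmk : 0 < ((m : ℝ) / 8) ^ k := pow_pos (by positivity) k
  have h5 : c / (2 * B) * ((Fintype.card V : ℕ) : ℝ) ^ k ≤ c / (2 * B) * (B * ((m : ℝ) / 8) ^ k) :=
    mul_le_mul_of_nonneg_left h4 (by positivity)
  have h6 : c / (2 * B) * (B * ((m : ℝ) / 8) ^ k) = (((m : ℝ) / 8) ^ k * c) / 2 := by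
    field_simp
  have h7 : 0 < ((m : ℝ) / 8) ^ k * c := mul_pos hmk hpos
  linarith

theorem van_of_little {C : Cl} (hC : FlagClass C) {n i k : ℕ} (hk : 1 ≤ k) (h : Little C (n + 2 * k) (i + k) k)
    (V : Type) [Fintype V] [LinearOrder V] (G : SimpleGraph V) (hG : C n V G) (hchi : chiW G = 0) : L2Van G i := by
  have hm : Mem1 C n (Fintype.card V) (nsim G) (bp G) := ⟨V, _, _, G, hG, rfl, rfl, hchi, le_rfl⟩
  have h1 := zero_of_little hC hk h hm
  rw [bp_coeff] at h1
  exact (bet_eq_zero i).1 (le_antisymm h1 (bet_nonneg i))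

/-- the saving of the power `s` of the number of vertices in the dimension `n - 1` -/
def Sav (C : Cl) (n s : ℕ) : Prop :=
  ∃ A : ℝ, ∀ (V : Type) [Fintype V] [LinearOrder V] (G : SimpleGraph V), C n V G → chiW G = 0 →
    bet G (n / 2 + 1) ≤ A * (Fintype.card V : ℝ) ^ ((n : ℝ) / 2 - s)

theorem little_of_sav {C : Cl} {n k s : ℕ} (hs : n + 2 ≤ 2 * s) (h : Sav C (n + 2 * k) s) :
    Little C (n + 2 * k) (n / 2 + 1 + k) k := by
  obtain ⟨A, hA⟩ := h
  intro K ε hε
  obtain ⟨M, hM⟩ := exists_nat_ge (|A| / ε)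
  refine ⟨M + 1, fun V _ _ G hG hchi hv _ => ?_⟩
  have h1 := hA V G hG hchi
  rw [show (n + 2 * k) / 2 + 1 = n / 2 + 1 + k by omega] at h1
  refine h1.trans ?_
  have hv1 : (M : ℝ) + 1 ≤ (Fintype.card V : ℝ) := by exact_mod_cast hv
  set x : ℝ := (Fintype.card V : ℝ) with hx
  have hM0 : (0 : ℝ) ≤ M := Nat.cast_nonneg M
  have hx1 : 1 ≤ x := by linarith
  have hx0 : 0 < x := by linarith
  have hsR : (n : ℝ) + 2 ≤ 2 * s := by exact_mod_cast hs
  have h2 : x ^ (((n + 2 * k : ℕ) : ℝ) / 2 - s) ≤ x ^ ((k : ℝ) - 1) := by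
    refine Real.rpow_le_rpow_of_exponent_le hx1 ?_
    push_cast
    linarith
  have h3 : x ^ ((k : ℝ) - 1) = x ^ k / x := by
    rw [Real.rpow_sub_one hx0.ne', Real.rpow_natCast]
  have h4 : A * x ^ (((n + 2 * k : ℕ) : ℝ) / 2 - s) ≤ |A| * (x ^ k / x) := by
    rw [← h3]
    exact (mul_le_mul_of_nonneg_right (le_abs_self A) (Real.rpow_nonneg hx0.le _)).trans
      (mul_le_mul_of_nonneg_left h2 (abs_nonneg A))
  refine h4.trans ?_
  have h5 : |A| ≤ ε * x := by
    rw [← div_le_iff₀' hε]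
    linarith
  have h6 : 0 < x ^ k := pow_pos hx0 k
  rw [mul_div_assoc', div_le_iff₀ hx0]
  nlinarith

/-- savings -/
def Savings (C : Cl) : Prop := ∀ s : ℕ, ∃ n : ℕ, s ≤ n ∧ Sav C n s

theorem singer_of_savings {C : Cl} (hC : FlagClass C) (h : Savings C) : Singer C := by
  refine singer_of_odd hC.gap fun n V _ _ G hG hn => ?_
  obtain ⟨n', hn', hB⟩ := h (2 * n + 2)
  rcases Nat.mod_two_eq_zero_or_one n' with h3 | h3
  · obtain ⟨k, hk⟩ : ∃ k, k = (n' - 2 * n) / 2 := ⟨_, rfl⟩
    rw [show n' = 2 * n + 2 * k by omega] at hB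
    have h1 := little_of_sav (by omega) hB
    rw [show 2 * n / 2 + 1 + k = (n + 1) + k by omega] at h1
    have hm2 : Mem1 C (n + n) (Fintype.card V + Fintype.card V) (nsim G * nsim G) (bp G * bp G) := by
      refine ⟨V ⊕ V, inferInstance, ordSum V V, join G G, hC.join _ _ _ _ G G hG hG, ?_, ?_, ?_, ?_⟩
      · rw [Fintype.card_sum]
      · rw [bp_join]
      · rw [chi_join, chi_odd (hC.sph _ _ _ hG) hn, zero_mul]
      · rw [nsim_join]
    rw [← two_mul] at hm2
    have h2 := zero_of_little hC (show 1 ≤ k by omega) h1 hm2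
    by_contra hv
    have hb : bet G (n / 2 + 1) ≠ 0 := fun h => hv ((bet_eq_zero _).1 h)
    have hpos : 0 < bet G (n / 2 + 1) := lt_of_le_of_ne (bet_nonneg _) (Ne.symm hb)
    have hpos2 : 0 < (bp G * bp G).coeff (n + 1) := by
      rw [show n + 1 = (n / 2 + 1) + (n / 2 + 1) by omega, coeff_mul]
      refine lt_of_lt_of_le (mul_pos hpos hpos) ?_
      rw [← bp_coeff]
      refine Finset.single_le_sum (f := fun x : ℕ × ℕ => (bp G).coeff x.1 * (bp G).coeff x.2)
        (fun x _ => mul_nonneg (bp_NN G _) (bp_NN G _)) (a := (n / 2 + 1, n / 2 + 1)) ?_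
      rw [Finset.HasAntidiagonal.mem_antidiagonal]
    linarith
  · obtain ⟨k, hk⟩ : ∃ k, k = (n' - n) / 2 := ⟨_, rfl⟩
    rw [show n' = n + 2 * k by omega] at hB
    exact van_of_little hC (show 1 ≤ k by omega) (little_of_sav (by omega) hB) V G hG (chi_odd (hC.sph _ _ _ hG) hn)

theorem savings_of_qone {C : Cl} (h : QOne C) : Savings C := by
  refine fun s => ⟨s, le_rfl, 0, fun V _ _ G hG hchi => ?_⟩
  rw [zero_mul]
  exact ((bet_eq_zero _).2 ((h _ V G hG).2 hchi _)).le

/-- the small saving in the odd dimensions -/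
def OddLittle (C : Cl) : Prop :=
  ∀ s : ℕ, ∃ k : ℕ, 1 ≤ k ∧ ∀ K ε : ℝ, 0 < ε → ∃ v₀ : ℕ,
    ∀ (V : Type) [Fintype V] [LinearOrder V] (G : SimpleGraph V), C (2 * (s + k) + 1) V G → v₀ ≤ Fintype.card V →
      (Nat.card {T : Finset V // G.IsClique (T : Set V)} : ℝ) ≤ K * (Fintype.card V : ℝ) ^ k →
        bet G (s + k + 1) ≤ ε * (Fintype.card V : ℝ) ^ k

theorem singer_of_oddLittle {C : Cl} (hC : FlagClass C) (h : OddLittle C) : Singer C := by
  refine singer_of_odd hC.gap fun n V _ _ G hG hn => ?_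
  obtain ⟨k, hk, hB⟩ := h (n / 2)
  have h1 : Little C (n + 2 * k) (n / 2 + 1 + k) k := by
    intro K ε hε
    obtain ⟨v₀, hv₀⟩ := hB K ε hε
    refine ⟨v₀, fun V _ _ G hG _ hv hK => ?_⟩
    rw [show n + 2 * k = 2 * (n / 2 + k) + 1 by omega] at hG
    have := hv₀ V G hG hv hK
    rwa [show n / 2 + k + 1 = n / 2 + 1 + k by omega] at this
  exact van_of_little hC hk h1 V G hG (chi_odd (hC.sph _ _ _ hG) hn)

theorem oddLittle_of_singer {C : Cl} (h : Singer C) : OddLittle C := by
  refine fun s => ⟨1, le_rfl, fun K ε hε => ⟨0, fun V _ _ G hG _ _ => ?_⟩⟩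
  rw [(bet_eq_zero _).2 (h _ V G hG (s + 1 + 1) (by omega))]
  positivity

theorem all_flag : FlagClass (fun n V _ _ G => HSph n G) where
  sph := fun _ _ _ _ _ h => h
  join := fun _ _ _ _ _ _ _ _ _ _ h1 h2 => hsph_join h1 h2
  link := fun n V _ _ G hG T hT _ => by
    exact hsph_link hG T hT
  gon := fun _ hm => hsphN hm

end Pool.Agent.P8H64.SV
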